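import Pool.Agent.W952.BPc

set_option autoImplicit false

/-! # Deterministic branching programs for Hamiltonicity

A deterministic branching program (no restriction on the order or the number of the queries, the
graph need not be acyclic) that decides Hamiltonicity of the graphs with `n` vertices has at least
`c n ^ 4 / (log n) ^ 2` nodes, with `c = 10 ^ (-12)`. In the number `N = n (n - 1) / 2` of the input
bits this is of the order `N ^ 2 / (log N) ^ 2`, the best lower bound known for branching programs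
and any explicit function.

Proof: `(n / 3) ⌊n / (12 g)⌋` disjoint blocks of `8 g` pairs, `4 ^ g ≥ n / 732`, such that all
`2 ^ (2 ^ (4 g))` functions of `4 g` bits are subfunctions on each block. A program in which `k`
nodes query pairs of the block has at most `(k + 3) ^ (2 k + 1)` subfunctions on it. -/

namespace Pool.Agent.Results.MP_6b3410_lc.BranchingPrograms

open Pool.Agent.W952 Pool.Agent.H554R2.Coin

/-- `x e` tells for each pair `e` of vertices whether it is joined in the graph. -/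
theorem result (n : ℕ) (hn : 3 ≤ n) (P : BP (Sym2 (Fin n)) Bool)
    (h : ∀ (G : SimpleGraph (Fin n)) (x : Sym2 (Fin n) → Bool),
      (∀ e, x e = true ↔ e ∈ G.edgeSet) →
      ∃ (l : List (Sym2 (Fin n))) (b : Bool), P.Comp x l b ∧ (b = true ↔ G.IsHamiltonian)) :
    n ^ 4 ≤ 10 ^ 12 * (Nat.log 2 n ^ 2 * Fintype.card P.State) := by
  have hD : BPDec n P := h
  rcases Nat.lt_or_ge n 732 with hs | hs
  · have h1 : 0 < Fintype.card P.State := Fintype.card_pos_iff.mpr ⟨P.start⟩
    have h2 : 1 ≤ Nat.log 2 n := by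
      apply (Nat.le_log_iff_pow_le (by norm_num) (by omega)).mpr
      omega
    have h3 : n ^ 4 ≤ 732 ^ 4 := Nat.pow_le_pow_left hs.le 4
    have h4 : 1 ≤ Nat.log 2 n ^ 2 * Fintype.card P.State :=
      Nat.mul_pos (pow_pos (by omega) 2) h1
    calc n ^ 4 ≤ 732 ^ 4 := h3
      _ ≤ 10 ^ 12 * 1 := by norm_num
      _ ≤ 10 ^ 12 * (Nat.log 2 n ^ 2 * Fintype.card P.State) := Nat.mul_le_mul_left _ h4
  · obtain ⟨g, hg, h1, h2, h3⟩ := choice hs
    have h4 := bp_bound hg h1 P hD
    have h5 := blocks_many hg h1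
    have h6 : n ^ 2 ≤ 732 ^ 2 * 2 ^ (4 * g) := by
      calc n ^ 2 ≤ (732 * 4 ^ g) ^ 2 := Nat.pow_le_pow_left h2 2
        _ = 732 ^ 2 * 2 ^ (4 * g) := by
          rw [mul_pow, ← pow_mul, show (4 : ℕ) = 2 ^ 2 by norm_num, ← pow_mul]
          congr 2
          ring
    generalize 2 ^ (4 * g) = Y at *
    generalize n / 3 * (n / 3 / (4 * g)) = Z at *
    generalize Fintype.card P.State = L at *
    generalize Nat.log 2 n = ℓ at *
    calc n ^ 4 = n ^ 2 * n ^ 2 := by ring
      _ ≤ (732 ^ 2 * Y) * (128 * g * Z) := Nat.mul_le_mul h6 h5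
      _ = 732 ^ 2 * 128 * (g * (Z * Y)) := by ring
      _ ≤ 732 ^ 2 * 128 * (g * (15 * g * L)) :=
          Nat.mul_le_mul_left _ (Nat.mul_le_mul_left _ h4)
      _ = 732 ^ 2 * 480 * ((2 * g) * (2 * g) * L) := by ring
      _ ≤ 732 ^ 2 * 480 * (ℓ * ℓ * L) :=
          Nat.mul_le_mul_left _ (Nat.mul_le_mul_right _ (Nat.mul_le_mul h3 h3))
      _ = 732 ^ 2 * 480 * (ℓ ^ 2 * L) := by ring
      _ ≤ 10 ^ 12 * (ℓ ^ 2 * L) := Nat.mul_le_mul_right _ (by norm_num)

end Pool.Agent.Results.MP_6b3410_lc.BranchingPrograms
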